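import Pool.Agent.Run7.h413.BR.Walk

/-!
# Budgeted sharing games: best-response paths of exponential length

An instance (`Inst U H`) has agents `U`, sites `H`, a relation of interest, and positive rates,
costs and budgets. A strategy of an agent is feasible (`Feasible`) if the agent is interested in all
sites of it, and its cost is at most the budget. In a state `S : U → Finset H` the agent `j`
receives `gain I S j = ∑ i ∈ S j, rate i / load S i`, where `load S i` is the number of the agents
that serve `i`. A move (`Move`) changes the strategy of one agent to a best response which is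
strictly better for it, and `IsPath I L P` says that `P 0, …, P L` are states (all strategies are
feasible), and that each of them arises from the one before by a move.

We show that there are best-response paths of length at least `2 ^ ((n + m) / 13)`, where `n` is
the number of the agents and `m` the number of the sites, for arbitrarily large `n + m`. All budgets
are `5`, all costs are `1` or `5`, at most two agents are interested in a site, and an agent is
interested in at most six sites. (If all costs are equal, then a pure Nash equilibrium can be found in polynomial time.)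

Construction. There are `3 k + 1` agents `u 0, …, u k`, `a 0, …, a (k - 1)`, `b 0, …, b (k - 1)`.
Every agent has a site of its own of cost `5`, and each of the `5 k` pairs `(u l, a l)`,
`(a l, b l)`, `(u l, u (l + 1))`, `(a l, u (l + 1))`, `(b l, u (l + 1))` shares a site of cost `1`
and of rate `2 w`, where `w` is `10`, `4`, `2`, `4`, `2` times `16 ^ (- l)`. So an agent serves
either its own site (it is off), or all of its at most five shared sites (it is on); a neighbour
which is on makes the shared sites worse by `w`. With the right rates of the own sites the best
response of `a l` is to be on exactly if `u l` is off, the best response of `b l` is to be on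
exactly if `a l` is off, and the best response of `u (l + 1)` is to be on exactly if `a l` is off
and `u l`, `b l` are not both on; the influence of the agents of higher index is too small to
matter. So `a l` and `b l` follow `u l` with a delay, and if the moves are made in a suitable order
then `u (l + 1)` switches on and off again whenever `u l` switches on, and also whenever `u l`
switches off: the number of the moves doubles from each level to the next one.
-/

set_option autoImplicit false

namespace Pool.Agent.Results.MP_2a1065_lc.LongBestResponsePaths

open Run7.h413.BR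

theorem result : ∃ c : ℝ, 0 < c ∧ ∀ N : ℕ,
    ∃ (U H : Type) (_ : Fintype U) (_ : DecidableEq U) (_ : Fintype H) (_ : DecidableEq H)
      (I : Inst U H),
      N ≤ Fintype.card U + Fintype.card H ∧
      (∀ j, I.budget j = 5) ∧ (∀ i, I.cost i = 1 ∨ I.cost i = 5) ∧
      (∀ i, {j | I.likes j i}.ncard ≤ 2) ∧ (∀ j, {i | I.likes j i}.ncard ≤ 6) ∧
      ∃ (L : ℕ) (P : ℕ → U → Finset H), IsPath I L P ∧
        (2 : ℝ) ^ (c * ((Fintype.card U : ℝ) + Fintype.card H)) ≤ L := by
  refine ⟨1 / 13, by norm_num, fun N => ?_⟩
  obtain ⟨k, hk⟩ : ∃ k, k = N + 1 := ⟨_, rfl⟩
  obtain ⟨P, hP⟩ := path k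
  have hU : Fintype.card (Node k) = 3 * k + 1 := Fintype.card_fin _
  have hH : Fintype.card (Node k ⊕ Edge k) = 8 * k + 1 := by
    rw [Fintype.card_sum, Fintype.card_prod, hU, Fintype.card_fin, Fintype.card_fin]
    ring
  refine ⟨Node k, Node k ⊕ Edge k, inferInstance, inferInstance, inferInstance, inferInstance,
    inst k, ?_, fun _ => rfl, ?_, ?_, ?_, len k, P, hP, ?_⟩
  · rw [hU, hH]; omega
  · rintro (i | e)
    · exact Or.inr rfl
    · exact Or.inl rfl
  · rintro (i | e)
    · have h1 : {j | (inst k).likes j (Sum.inl i)} ⊆ (({i} : Finset (Node k)) : Set (Node k)) := by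
        rintro j (h | ⟨e, -, h⟩)
        · simpa using (Sum.inl.inj h).symm
        · cases h
      refine (Set.ncard_le_ncard h1 (Finset.finite_toSet _)).trans ?_
      rw [Set.ncard_coe_finset]; simp
    · have h1 : {j | (inst k).likes j (Sum.inr e)} ⊆
          (({pa e, pb e} : Finset (Node k)) : Set (Node k)) := by
        rintro j (h | ⟨e', he', h⟩)
        · cases h
        · obtain rfl := Sum.inr.inj h
          rcases mem_inc.1 he' with h | h
          · simp [h]
          · simp [h]
      refine (Set.ncard_le_ncard h1 (Finset.finite_toSet _)).trans ?_
      rw [Set.ncard_coe_finset]; exact Finset.card_le_two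
  · intro j
    have h1 : {i | (inst k).likes j i} ⊆
        ((insert (Sum.inl j) ((inc j).map Function.Embedding.inr) : Finset (Node k ⊕ Edge k)) :
          Set (Node k ⊕ Edge k)) := by
      rintro i (h | ⟨e, he, h⟩)
      · simp [h]
      · simp [h, he]
    refine (Set.ncard_le_ncard h1 (Finset.finite_toSet _)).trans ?_
    rw [Set.ncard_coe_finset]
    refine (Finset.card_insert_le _ _).trans ?_
    rw [Finset.card_map]
    have := card_inc_le j
    omega
  · rw [hU, hH]
    have h1 : (2 : ℝ) ^ ((1 / 13 : ℝ) * (((3 * k + 1 : ℕ) : ℝ) + ((8 * k + 1 : ℕ) : ℝ)))
        ≤ (2 : ℝ) ^ (k : ℝ) := by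
      refine Real.rpow_le_rpow_of_exponent_le (by norm_num) ?_
      have h2 : (1 : ℝ) ≤ k := by exact_mod_cast (show 1 ≤ k by omega)
      push_cast
      linarith
    refine h1.trans ?_
    rw [Real.rpow_natCast]
    have h3 := len_eq k
    have h4 : 1 ≤ k := by omega
    have h5 : 2 ≤ 2 ^ k := by
      calc 2 = 2 ^ 1 := by norm_num
        _ ≤ 2 ^ k := Nat.pow_le_pow_right (by norm_num) h4
    have h6 : 2 ^ k ≤ len k := by omega
    exact_mod_cast h6

end Pool.Agent.Results.MP_2a1065_lc.LongBestResponsePaths
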